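import Mathlib

/-!
# Binary codes closed under a coordinatewise Boolean operation
-/

set_option autoImplicit false

namespace Pool.Agent.V11160.CO

open Finset

/-! ### Intersection-closed families with large symmetric differences -/

section Sets

variable {ι : Type*} [DecidableEq ι]

/-- An intersection-closed family of subsets of `U` whose members differ pairwise in at least `d`
elements has at most `2 ^ (|U| / d)` members. -/
theorem card_le_of_inter {d : ℕ} (hd : 1 ≤ d) : ∀ (n : ℕ) (U : Finset ι) (C : Finset (Finset ι)),
    U.card ≤ n → (∀ A ∈ C, A ⊆ U) → (∀ A ∈ C, ∀ B ∈ C, A ∩ B ∈ C) →
    (∀ A ∈ C, ∀ B ∈ C, A ≠ B → d ≤ ((A \ B) ∪ (B \ A)).card) → C.card ≤ 2 ^ (U.card / d) := by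
  intro n
  induction n with
  | zero =>
    intro U C hU hsub _ _
    have hU0 : U = ∅ := by rw [← Finset.card_eq_zero]; omega
    subst hU0
    have : C ⊆ {∅} := fun A hA => by
      rw [Finset.mem_singleton]; exact Finset.subset_empty.1 (hsub A hA)
    calc C.card ≤ ({∅} : Finset (Finset ι)).card := Finset.card_le_card this
      _ = 1 := Finset.card_singleton _
      _ ≤ _ := Nat.one_le_two_pow
  | succ n ih =>
    intro U C hU hsub hint hdist
    by_cases hC : C.card ≤ 1
    · exact hC.trans Nat.one_le_two_pow
    push Not at hC
    obtain ⟨m, hm, hmin⟩ := Finset.exists_min_image C Finset.card
      (Finset.card_pos.1 (by omega))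
    -- the smallest member
    have hmle : ∀ X ∈ C, m ⊆ X := by
      intro X hX
      have h1 := hmin _ (hint m hm X hX)
      have h2 : m ∩ X = m := Finset.eq_of_subset_of_card_le inter_subset_left h1
      exact h2 ▸ inter_subset_right
    obtain ⟨A, hA, hAmin⟩ := Finset.exists_min_image (C.erase m) Finset.card
      (Finset.card_pos.1 (by rw [Finset.card_erase_of_mem hm]; omega))
    rw [Finset.mem_erase] at hA
    obtain ⟨hAm, hA⟩ := hA
    set D := A \ m with hD
    have hDA : D ⊆ A := Finset.sdiff_subset
    have hdD : d ≤ D.card := by
      have h1 := hdist A hA m hm hAm
      rwa [Finset.sdiff_eq_empty_iff_subset.2 (hmle A hA), Finset.union_empty] at h1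
    have hcase : ∀ X ∈ C, D ⊆ X ∨ Disjoint D X := by
      intro X hX
      by_cases h : A ∩ X = m
      · right
        rw [Finset.disjoint_left]
        intro a haD haX
        rw [hD, Finset.mem_sdiff] at haD
        exact haD.2 (h ▸ Finset.mem_inter.2 ⟨haD.1, haX⟩)
      · left
        have h1 := hAmin _ (Finset.mem_erase.2 ⟨h, hint A hA X hX⟩)
        have h2 : A ∩ X = A := Finset.eq_of_subset_of_card_le inter_subset_left h1
        exact hDA.trans (h2 ▸ inter_subset_right)
    have hDU : D ⊆ U := hDA.trans (hsub A hA)
    have hcardU : (U \ D).card = U.card - D.card := Finset.card_sdiff_of_subset hDU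
    have hDle : D.card ≤ U.card := Finset.card_le_card hDU
    have hDne : D.Nonempty := Finset.card_pos.1 (by omega)
    -- the two halves
    have h0 : (C.filter fun X => Disjoint D X).card ≤ 2 ^ ((U \ D).card / d) := by
      refine ih (U \ D) _ (by omega) ?_ ?_ ?_
      · intro X hX
        rw [Finset.mem_filter] at hX
        exact Finset.subset_sdiff.2 ⟨hsub X hX.1, hX.2.symm⟩
      · intro X hX Y hY
        rw [Finset.mem_filter] at hX hY ⊢
        exact ⟨hint X hX.1 Y hY.1, hX.2.mono_right inter_subset_left⟩
      · intro X hX Y hY hXY
        rw [Finset.mem_filter] at hX hY
        exact hdist X hX.1 Y hY.1 hXY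
    have hinj : Set.InjOn (fun X => X \ D) ((C.filter fun X => D ⊆ X : Finset _) : Set (Finset ι)) := by
      intro X hX Y hY he
      rw [Finset.mem_coe, Finset.mem_filter] at hX hY
      have he' : X \ D = Y \ D := he
      rw [← Finset.sdiff_union_of_subset hX.2, he', Finset.sdiff_union_of_subset hY.2]
    have h1 : (C.filter fun X => D ⊆ X).card ≤ 2 ^ ((U \ D).card / d) := by
      rw [← Finset.card_image_of_injOn hinj]
      refine ih (U \ D) _ (by omega) ?_ ?_ ?_
      · intro X hX
        obtain ⟨Y, hY, rfl⟩ := Finset.mem_image.1 hX
        rw [Finset.mem_filter] at hY
        exact Finset.sdiff_subset_sdiff (hsub Y hY.1) subset_rfl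
      · intro X' hX' Y' hY'
        obtain ⟨X, hX, rfl⟩ := Finset.mem_image.1 hX'
        obtain ⟨Y, hY, rfl⟩ := Finset.mem_image.1 hY'
        rw [Finset.mem_filter] at hX hY
        refine Finset.mem_image.2 ⟨X ∩ Y, ?_, ?_⟩
        · rw [Finset.mem_filter]
          exact ⟨hint X hX.1 Y hY.1, Finset.subset_inter hX.2 hY.2⟩
        · ext a; simp only [Finset.mem_sdiff, Finset.mem_inter]; tauto
      · intro X' hX' Y' hY' hXY
        obtain ⟨X, hX, rfl⟩ := Finset.mem_image.1 hX'
        obtain ⟨Y, hY, rfl⟩ := Finset.mem_image.1 hY'
        rw [Finset.mem_filter] at hX hY
        have hne : X ≠ Y := fun h => hXY (by rw [h])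
        have h2 := hdist X hX.1 Y hY.1 hne
        have h3 : ((X \ D) \ (Y \ D) ∪ (Y \ D) \ (X \ D)) = ((X \ Y) ∪ (Y \ X)) := by
          ext a
          have hXD : a ∈ D → a ∈ X := fun h => hX.2 h
          have hYD : a ∈ D → a ∈ Y := fun h => hY.2 h
          simp only [Finset.mem_union, Finset.mem_sdiff]
          tauto
        rw [h3]; exact h2
    have hsplit : C.card ≤ (C.filter fun X => D ⊆ X).card +
        (C.filter fun X => Disjoint D X).card := by
      refine le_trans (Finset.card_le_card ?_) (Finset.card_union_le _ _)
      intro X hX
      rw [Finset.mem_union, Finset.mem_filter, Finset.mem_filter]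
      rcases hcase X hX with h | h
      · exact Or.inl ⟨hX, h⟩
      · exact Or.inr ⟨hX, h⟩
    have hexp : (U \ D).card / d + 1 ≤ U.card / d := by
      rw [hcardU]
      calc (U.card - D.card) / d + 1 ≤ (U.card - d) / d + 1 := by
            gcongr
        _ = U.card / d := by
            rw [← Nat.add_div_right _ (by omega : 0 < d), Nat.sub_add_cancel (by omega)]
    calc C.card ≤ 2 ^ ((U \ D).card / d) + 2 ^ ((U \ D).card / d) :=
          hsplit.trans (add_le_add h1 h0)
      _ = 2 ^ ((U \ D).card / d + 1) := by ring
      _ ≤ 2 ^ (U.card / d) := Nat.pow_le_pow_right (by norm_num) hexp

end Sets

/-! ### Words -/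

variable {n : ℕ}

/-- the majority function -/
def maj (a b c : Bool) : Bool := (a && b) || ((b && c) || (a && c))

theorem card_le_of_maj {d : ℕ} (hd : 1 ≤ d) (C : Finset (Fin n → Bool))
    (hdist : ∀ x ∈ C, ∀ y ∈ C, x ≠ y → d ≤ hammingDist x y) (c : Fin n → Bool)
    (hc : ∀ x ∈ C, ∀ y ∈ C, (fun l => maj (c l) (x l) (y l)) ∈ C) :
    C.card ≤ 2 ^ (n / d) := by
  classical
  let Φ : (Fin n → Bool) → Finset (Fin n) := fun x => univ.filter fun l => x l ≠ c l
  have hmem : ∀ x l, l ∈ Φ x ↔ x l ≠ c l := fun x l => by simp [Φ]
  have hinj : Function.Injective Φ := by
    intro x y h
    funext l
    have h1 : l ∈ Φ x ↔ l ∈ Φ y := by rw [h]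
    rw [hmem, hmem] at h1
    cases hx : x l <;> cases hy : y l <;> cases hcl : c l <;> simp_all
  rw [← Finset.card_image_of_injective C hinj]
  have h := card_le_of_inter hd n (univ : Finset (Fin n)) (C.image Φ) (by simp)
    (fun A _ => Finset.subset_univ A) ?_ ?_
  · simpa using h
  · intro A hA B hB
    obtain ⟨x, hx, rfl⟩ := Finset.mem_image.1 hA
    obtain ⟨y, hy, rfl⟩ := Finset.mem_image.1 hB
    refine Finset.mem_image.2 ⟨_, hc x hx y hy, ?_⟩
    ext l
    rw [Finset.mem_inter, hmem, hmem, hmem]
    cases hxl : x l <;> cases hyl : y l <;> cases hcl : c l <;> simp [maj]
  · intro A hA B hB hAB
    obtain ⟨x, hx, rfl⟩ := Finset.mem_image.1 hA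
    obtain ⟨y, hy, rfl⟩ := Finset.mem_image.1 hB
    have hne : x ≠ y := fun h => hAB (by rw [h])
    refine (hdist x hx y hy hne).trans (le_of_eq ?_)
    unfold hammingDist
    congr 1
    ext l
    rw [Finset.mem_filter, Finset.mem_union, Finset.mem_sdiff, Finset.mem_sdiff, hmem, hmem]
    cases hxl : x l <;> cases hyl : y l <;> cases hcl : c l <;> simp

/-! ### Closure under functions of few arguments -/

section Closure

variable (C : Finset (Fin n → Bool))

/-- closed under a binary operation -/
def Cl2 (b : Bool → Bool → Bool) : Prop :=
  ∀ x ∈ C, ∀ y ∈ C, (fun l => b (x l) (y l)) ∈ C

/-- closed under a ternary operation -/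
def Cl3 (b : Bool → Bool → Bool → Bool) : Prop :=
  ∀ x ∈ C, ∀ y ∈ C, ∀ z ∈ C, (fun l => b (x l) (y l) (z l)) ∈ C

/-- closed under a 4-ary operation -/
def Cl4 (b : Bool → Bool → Bool → Bool → Bool) : Prop :=
  ∀ s ∈ C, ∀ t ∈ C, ∀ x ∈ C, ∀ y ∈ C, (fun l => b (s l) (t l) (x l) (y l)) ∈ C

/-- closed under the majority with a fixed word -/
def MajClosed : Prop := ∃ c : Fin n → Bool, ∀ x ∈ C, ∀ y ∈ C,
  (fun l => maj (c l) (x l) (y l)) ∈ C

variable {C}

lemma maj_of_and (h : Cl2 C fun x y => x && y) : MajClosed C := by
  refine ⟨fun _ => false, fun x hx y hy => ?_⟩
  convert h x hx y hy using 1
  funext l
  cases x l <;> cases y l <;> rfl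

lemma maj_of_or (h : Cl2 C fun x y => x || y) : MajClosed C := by
  refine ⟨fun _ => true, fun x hx y hy => ?_⟩
  convert h x hx y hy using 1
  funext l
  cases x l <;> cases y l <;> rfl

lemma nonaffine2 {b : Bool → Bool → Bool} (hb : Cl2 C b)
    (hS : xor (xor (b false false) (b false true)) (xor (b true false) (b true true)) = true) :
    MajClosed C := by
  cases h00 : b false false <;> cases h01 : b false true <;> cases h10 : b true false <;>
    cases h11 : b true true <;> simp only [h00, h01, h10, h11] at hS <;>
    first
    | exact absurd hS (by decide)
    | (refine maj_of_and fun x hx y hy => ?_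
       first
       | (have h1 := hb x hx y hy
          convert h1 using 1
          funext l
          cases hxl : x l <;> cases hyl : y l <;> simp [h00, h01, h10, h11] <;> done)
       | (have h1 := hb x hx _ (hb x hx y hy)
          convert h1 using 1
          funext l
          cases hxl : x l <;> cases hyl : y l <;> simp [h00, h01, h10, h11] <;> done)
       | (have h1 := hb _ (hb x hx y hy) y hy
          convert h1 using 1
          funext l
          cases hxl : x l <;> cases hyl : y l <;> simp [h00, h01, h10, h11] <;> done)
       | (have h1 := hb _ (hb x hx y hy) _ (hb x hx y hy)
          convert h1 using 1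
          funext l
          cases hxl : x l <;> cases hyl : y l <;> simp [h00, h01, h10, h11] <;> done))
    | (refine maj_of_or fun x hx y hy => ?_
       first
       | (have h1 := hb x hx y hy
          convert h1 using 1
          funext l
          cases hxl : x l <;> cases hyl : y l <;> simp [h00, h01, h10, h11] <;> done)
       | (have h1 := hb x hx _ (hb x hx y hy)
          convert h1 using 1
          funext l
          cases hxl : x l <;> cases hyl : y l <;> simp [h00, h01, h10, h11] <;> done)
       | (have h1 := hb _ (hb x hx y hy) y hy
          convert h1 using 1
          funext l
          cases hxl : x l <;> cases hyl : y l <;> simp [h00, h01, h10, h11] <;> done)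
       | (have h1 := hb _ (hb x hx y hy) _ (hb x hx y hy)
          convert h1 using 1
          funext l
          cases hxl : x l <;> cases hyl : y l <;> simp [h00, h01, h10, h11] <;> done))

lemma nonaffine3 {h : Bool → Bool → Bool → Bool} (hh : Cl3 C h)
    (hid : h false false false = false) (hsd : ∀ x y z, h (!x) (!y) (!z) = !(h x y z))
    (he : xor (xor (h true false false) (h false true false)) (h false false true) = false)
    (hne : C.Nonempty) : MajClosed C := by
  have h111 : h true true true = true := by
    have := hsd false false false; rw [hid] at this; exact this
  have h011 : h false true true = !(h true false false) := hsd true false false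
  have h101 : h true false true = !(h false true false) := hsd false true false
  have h110 : h true true false = !(h false false true) := hsd false false true
  have key : Cl3 C maj := by
    intro x hx y hy z hz
    cases h100 : h true false false <;> cases h010 : h false true false <;>
      cases h001 : h false false true <;>
      rw [h100, h010, h001] at he <;> rw [h100] at h011 <;> rw [h010] at h101 <;>
      rw [h001] at h110 <;> simp only [Bool.not_false, Bool.not_true] at h011 h101 h110 <;>
      first
      | exact absurd he (by decide)
      | (convert hh x hx y hy z hz using 1
         funext l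
         cases hxl : x l <;> cases hyl : y l <;> cases hzl : z l <;>
           simp [maj, hid, h111, h011, h101, h110, h100, h010, h001] <;> done)
      | (convert hh x hx y hy _ (hh x hx y hy z hz) using 1
         funext l
         cases hxl : x l <;> cases hyl : y l <;> cases hzl : z l <;>
           simp [maj, hid, h111, h011, h101, h110, h100, h010, h001] <;> done)
      | (convert hh x hx _ (hh x hx y hy z hz) z hz using 1
         funext l
         cases hxl : x l <;> cases hyl : y l <;> cases hzl : z l <;>
           simp [maj, hid, h111, h011, h101, h110, h100, h010, h001] <;> done)
      | (convert hh _ (hh x hx y hy z hz) y hy z hz using 1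
         funext l
         cases hxl : x l <;> cases hyl : y l <;> cases hzl : z l <;>
           simp [maj, hid, h111, h011, h101, h110, h100, h010, h001] <;> done)
  obtain ⟨c, hc⟩ := hne
  exact ⟨c, fun x hx y hy => key c hc x hx y hy⟩

/-- the second difference of `g(0, 1, x, y)` in `x` and `y` -/
def S4 (g : Bool → Bool → Bool → Bool → Bool) : Bool :=
  xor (xor (g false true false false) (g false true false true))
    (xor (g false true true false) (g false true true true))

lemma nonaffine4_id {g : Bool → Bool → Bool → Bool → Bool} (hg : Cl4 C g) (hS : S4 g = true)
    (h0 : g false false false false = false) (h1 : g true true true true = true)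
    (hne : C.Nonempty) : MajClosed C := by
  by_cases hsd : ∀ s t x y, g (!s) (!t) (!x) (!y) = !(g s t x y)
  · -- self-dual
    have e1 : g false true true true = !(g true false false false) := hsd true false false false
    have e2 : g false true false true = !(g true false true false) := hsd true false true false
    unfold S4 at hS
    rw [e1, e2] at hS
    by_cases hh : xor (xor (g true false true false) (g false true false false))
        (g false false false true) = false
    · exact nonaffine3 (C := C) (h := fun s t y => g s t s y)
        (fun s hs t ht y hy => hg s hs t ht s hs y hy) h0 (fun s t y => hsd s t s y) hh hne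
    · refine nonaffine3 (C := C) (h := fun s t y => g s t t y)
        (fun s hs t ht y hy => hg s hs t ht t ht y hy) h0 (fun s t y => hsd s t t y) ?_ hne
      show xor (xor (g true false false false) (g false true true false))
        (g false false false true) = false
      revert hS hh
      generalize g true false false false = a1
      generalize g false true true false = a2
      generalize g false false false true = a3
      generalize g true false true false = a4
      generalize g false true false false = a5
      revert a1 a2 a3 a4 a5
      decide
  · push Not at hsd
    obtain ⟨s, t, x, y, hv⟩ := hsd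
    refine nonaffine2 (C := C) (b := fun u w => g (if s then w else u) (if t then w else u)
      (if x then w else u) (if y then w else u)) ?_ ?_
    · intro u hu w hw
      have := hg (if s then w else u) (by split_ifs <;> assumption) (if t then w else u)
        (by split_ifs <;> assumption) (if x then w else u) (by split_ifs <;> assumption)
        (if y then w else u) (by split_ifs <;> assumption)
      convert this using 1
      funext l
      cases s <;> cases t <;> cases x <;> cases y <;> rfl
    · have a00 : g (if s then false else false) (if t then false else false)
          (if x then false else false) (if y then false else false) = false := by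
        simpa using h0
      have a11 : g (if s then true else true) (if t then true else true)
          (if x then true else true) (if y then true else true) = true := by
        simpa using h1
      have a01 : g (if s then true else false) (if t then true else false)
          (if x then true else false) (if y then true else false) = g s t x y := by
        cases s <;> cases t <;> cases x <;> cases y <;> rfl
      have a10 : g (if s then false else true) (if t then false else true)
          (if x then false else true) (if y then false else true) =
          g (!s) (!t) (!x) (!y) := by
        cases s <;> cases t <;> cases x <;> cases y <;> rfl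
      show xor (xor (g _ _ _ _) (g _ _ _ _)) (xor (g _ _ _ _) (g _ _ _ _)) = true
      rw [a00, a11, a01, a10]
      revert hv
      cases g s t x y <;> cases g (!s) (!t) (!x) (!y) <;> decide

theorem nonaffine4 {g : Bool → Bool → Bool → Bool → Bool} (hg : Cl4 C g) (hS : S4 g = true)
    (hne : C.Nonempty) : MajClosed C := by
  obtain ⟨w, hw⟩ := hne
  cases h0 : g false false false false <;> cases h1 : g true true true true
  · -- the zero word
    have hz : (fun _ => false) ∈ C := by
      convert hg w hw w hw w hw w hw using 1
      funext l
      cases w l <;> simp [h0, h1]
    unfold S4 at hS
    by_cases hb : xor (xor (g false false false false) (g false false false true))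
        (xor (g false true false false) (g false true false true)) = true
    · exact nonaffine2 (C := C) (b := fun t y => g false t false y)
        (fun t ht y hy => hg _ hz t ht _ hz y hy) hb
    · refine nonaffine2 (C := C) (b := fun t y => g false t t y)
        (fun t ht y hy => hg _ hz t ht t ht y hy) ?_
      show xor (xor (g false false false false) (g false false false true))
        (xor (g false true true false) (g false true true true)) = true
      revert hS hb
      cases g false false false false <;> cases g false false false true <;>
        cases g false true true false <;> cases g false true true true <;>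
        cases g false true false false <;> cases g false true false true <;> decide
  · exact nonaffine4_id hg hS h0 h1 ⟨w, hw⟩
  · -- the negation
    have hneg : ∀ v ∈ C, (fun l => !(v l)) ∈ C := by
      intro v hv
      convert hg v hv v hv v hv v hv using 1
      funext l
      cases v l <;> simp [h0, h1]
    refine nonaffine4_id (C := C) (g := fun s t x y => !(g s t x y))
      (fun s hs t ht x hx y hy => hneg _ (hg s hs t ht x hx y hy)) ?_ (by simp [h0])
      (by simp [h1]) ⟨w, hw⟩
    unfold S4 at hS
    show xor (xor (!(g false true false false)) (!(g false true false true)))
      (xor (!(g false true true false)) (!(g false true true true))) = true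
    revert hS
    cases g false true false false <;> cases g false true false true <;>
      cases g false true true false <;> cases g false true true true <;> decide
  · -- the word of ones
    have hz : (fun _ => true) ∈ C := by
      convert hg w hw w hw w hw w hw using 1
      funext l
      cases w l <;> simp [h0, h1]
    unfold S4 at hS
    by_cases hb : xor (xor (g false true true false) (g false true true true))
        (xor (g true true true false) (g true true true true)) = true
    · exact nonaffine2 (C := C) (b := fun s y => g s true true y)
        (fun s hs y hy => hg s hs _ hz _ hz y hy) hb
    · refine nonaffine2 (C := C) (b := fun s y => g s true s y)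
        (fun s hs y hy => hg s hs _ hz s hs y hy) ?_
      show xor (xor (g false true false false) (g false true false true))
        (xor (g true true true false) (g true true true true)) = true
      revert hS hb
      cases g true true true false <;> cases g true true true true <;>
        cases g false true true false <;> cases g false true true true <;>
        cases g false true false false <;> cases g false true false true <;> decide

end Closure

/-! ### Functions of many arguments -/

section Many

variable {k : ℕ}

/-- `f` is affine: the sum modulo 2 of some of its arguments and of a constant -/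
def Affine (f : (Fin k → Bool) → Bool) : Prop :=
  ∃ (c : Bool) (A : Finset (Fin k)), ∀ v,
    f v = xor c (decide (Odd (A.filter fun i => v i = true).card))

/-- a second difference of a function which is not affine is not zero -/
lemma exists_second {f : (Fin k → Bool) → Bool} (hf : ¬ Affine f) :
    ∃ (i j : Fin k) (a : Fin k → Bool), i ≠ j ∧
      xor (xor (f (Function.update (Function.update a i false) j false))
        (f (Function.update (Function.update a i false) j true)))
        (xor (f (Function.update (Function.update a i true) j false))
        (f (Function.update (Function.update a i true) j true))) = true := by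
  classical
  by_contra hcon
  push Not at hcon
  apply hf
  -- the first differences are constant
  let D : Fin k → (Fin k → Bool) → Bool := fun i a =>
    xor (f (Function.update a i false)) (f (Function.update a i true))
  have hDupd : ∀ i j a b, D i (Function.update a j b) = D i a := by
    intro i j a b
    by_cases hij : i = j
    · subst hij; simp [D]
    · have h1 := hcon i j a hij
      have hD : ∀ b', D i (Function.update a j b') =
          xor (f (Function.update (Function.update a i false) j b'))
            (f (Function.update (Function.update a i true) j b')) := by
        intro b'
        simp only [D]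
        rw [Function.update_comm (Ne.symm hij), Function.update_comm (Ne.symm hij)]
      have hD2 : D i (Function.update a j false) = D i (Function.update a j true) := by
        rw [hD, hD]
        revert h1
        cases f (Function.update (Function.update a i false) j false) <;>
        cases f (Function.update (Function.update a i false) j true) <;>
        cases f (Function.update (Function.update a i true) j false) <;>
        cases f (Function.update (Function.update a i true) j true) <;> simp
      have hself : D i (Function.update a j (a j)) = D i a := by rw [Function.update_eq_self]
      rw [← hself]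
      cases b <;> cases a j <;> simp [hD2]
  have hDconst : ∀ i a, D i a = D i fun _ => false := by
    intro i a
    -- change the arguments one by one
    have : ∀ s : Finset (Fin k), D i (fun j => if j ∈ s then a j else false) =
        D i fun _ => false := by
      intro s
      induction s using Finset.induction_on with
      | empty => simp
      | insert j s hj ih =>
        rw [← ih, ← hDupd i j (fun l => if l ∈ s then a l else false) (a j)]
        congr 1
        funext l
        by_cases hl : l = j
        · subst hl; simp
        · simp [Function.update_of_ne hl, hl]
    have h2 := this univ
    simpa using h2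
  refine ⟨f fun _ => false, univ.filter fun i => D i (fun _ => false) = true, fun v => ?_⟩
  have key : ∀ s : Finset (Fin k), f (fun j => if j ∈ s then v j else false) =
      xor (f fun _ => false) (decide (Odd
        ((s.filter fun i => D i (fun _ => false) = true ∧ v i = true).card))) := by
    intro s
    induction s using Finset.induction_on with
    | empty => simp
    | insert j s hj ih =>
      have hupd : (fun l => if l ∈ insert j s then v l else false) =
          Function.update (fun l => if l ∈ s then v l else false) j (v j) := by
        funext l
        by_cases hl : l = j
        · subst hl; simp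
        · simp [Function.update_of_ne hl, hl]
      have hold : (fun l => if l ∈ s then v l else false) =
          Function.update (fun l => if l ∈ s then v l else false) j false := by
        funext l
        by_cases hl : l = j
        · subst hl; simp [hj]
        · simp [Function.update_of_ne hl]
      rw [hupd, Finset.filter_insert]
      cases hv : v j
      · rw [← hold, ih]; simp
      · have h3 := hDconst j (fun l => if l ∈ s then v l else false)
        simp only [D] at h3
        rw [← hold, ih] at h3
        cases hDj : D j fun _ => false
        · have : xor (f (Function.update (fun _ => false) j false))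
            (f (Function.update (fun _ => false) j true)) = false := hDj
          rw [this] at h3
          simp only [hDj, Bool.false_eq_true, false_and, if_false]
          revert h3
          cases f (Function.update (fun l => if l ∈ s then v l else false) j true) <;> simp
        · have : xor (f (Function.update (fun _ => false) j false))
            (f (Function.update (fun _ => false) j true)) = true := hDj
          rw [this] at h3
          have hodd : ∀ m : ℕ, decide (Odd (m + 1)) = !(decide (Odd m)) := fun m => by
            by_cases h : Odd m <;> simp [h, Nat.odd_add_one]
          simp only [and_self, if_true]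
          rw [Finset.card_insert_of_notMem (by simp [hj]), hodd]
          revert h3
          cases f (Function.update (fun l => if l ∈ s then v l else false) j true) <;>
            cases (f fun _ => false) <;>
            cases decide (Odd
              ((s.filter fun i => D i (fun _ => false) = true ∧ v i = true).card)) <;> decide
  have h4 := key univ
  simp only [Finset.mem_univ, if_true] at h4
  rw [h4, Finset.filter_filter]

/-- closed under the coordinatewise operation `f` -/
def Closed (f : (Fin k → Bool) → Bool) (C : Finset (Fin n → Bool)) : Prop :=
  ∀ w : Fin k → Fin n → Bool, (∀ i, w i ∈ C) → (fun l => f fun i => w i l) ∈ C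

theorem majClosed_of_closed {f : (Fin k → Bool) → Bool} (hf : ¬ Affine f)
    {C : Finset (Fin n → Bool)} (hC : Closed f C) (hne : C.Nonempty) : MajClosed C := by
  obtain ⟨i, j, a, hij, hS⟩ := exists_second hf
  refine nonaffine4 (C := C) (g := fun s t x y => f fun l =>
    if l = j then y else if l = i then x else if a l then t else s) ?_ ?_ hne
  · intro s hs t ht x hx y hy
    have := hC (fun l => if l = j then y else if l = i then x else if a l then t else s) (by
      intro l; split_ifs <;> assumption)
    convert this using 1
    funext l
    show f (fun l' => if l' = j then y l else if l' = i then x l else if a l' then t l else s l) =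
      f (fun i' => (if i' = j then y else if i' = i then x else if a i' then t else s) l)
    congr 1
    funext l'
    split_ifs <;> rfl
  · have hfun : ∀ b c : Bool, (fun l => if l = j then c else if l = i then b else
        if a l then true else false) = Function.update (Function.update a i b) j c := by
      intro b c
      funext l
      by_cases hlj : l = j
      · subst hlj; simp
      · by_cases hli : l = i
        · subst hli; simp [Function.update_of_ne hlj, hlj]
        · simp [Function.update_of_ne hlj, Function.update_of_ne hli, hlj, hli]
    simp only [S4, hfun]
    exact hS

theorem upper {f : (Fin k → Bool) → Bool} (hf : ¬ Affine f) {d : ℕ} (hd : 1 ≤ d)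
    {C : Finset (Fin n → Bool)} (hC : Closed f C)
    (hdist : ∀ x ∈ C, ∀ y ∈ C, x ≠ y → d ≤ hammingDist x y) : C.card ≤ 2 ^ (n / d) := by
  rcases C.eq_empty_or_nonempty with rfl | hne
  · simp
  · obtain ⟨c, hc⟩ := majClosed_of_closed hf hC hne
    exact card_le_of_maj hd C hdist c hc

end Many

end Pool.Agent.V11160.CO
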