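import Mathlib
import Pool.Agent.V11160.CodeOps

/-!
# Block codes and linear codes reaching the Gilbert–Varshamov bound
-/

set_option autoImplicit false

namespace Pool.Agent.V11160.CO

open Finset

variable {n : ℕ}

/-! ### Block codes -/

section Block

variable {d : ℕ}

/-- repeat every letter `d` times (the last one also on the remaining places) -/
def enc (hd : 1 ≤ d) (hdn : d ≤ n) (v : Fin (n / d) → Bool) : Fin n → Bool := fun l =>
  v ⟨min (l.1 / d) (n / d - 1), by
    have : 0 < n / d := Nat.div_pos hdn hd
    omega⟩

lemma enc_dist (hd : 1 ≤ d) (hdn : d ≤ n) {v v' : Fin (n / d) → Bool} (h : v ≠ v') :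
    d ≤ hammingDist (enc hd hdn v) (enc hd hdn v') := by
  classical
  obtain ⟨j, hj⟩ := Function.ne_iff.1 h
  have hjn : j.1 * d + d ≤ n := by
    have h1 : j.1 + 1 ≤ n / d := j.2
    calc j.1 * d + d = (j.1 + 1) * d := by ring
      _ ≤ n / d * d := Nat.mul_le_mul_right _ h1
      _ ≤ n := Nat.div_mul_le_self n d
  let e : Fin d → Fin n := fun i => ⟨j.1 * d + i.1, by omega⟩
  have he : Function.Injective e := by
    intro a b hab
    have := congrArg Fin.val hab
    simp only [e] at this
    exact Fin.ext (by omega)
  have hsub : (univ.image e) ⊆ univ.filter fun l => enc hd hdn v l ≠ enc hd hdn v' l := by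
    intro l hl
    obtain ⟨i, -, rfl⟩ := Finset.mem_image.1 hl
    rw [Finset.mem_filter]
    refine ⟨Finset.mem_univ _, ?_⟩
    have h1 : (j.1 * d + i.1) / d = j.1 := by
      rw [mul_comm, Nat.mul_add_div (by omega), Nat.div_eq_of_lt i.2, add_zero]
    have h2 : (⟨min ((e i).1 / d) (n / d - 1), by
        have : 0 < n / d := Nat.div_pos hdn hd
        omega⟩ : Fin (n / d)) = j := by
      apply Fin.ext
      show min ((j.1 * d + i.1) / d) (n / d - 1) = j.1
      rw [h1]
      have := j.2
      omega
    unfold enc
    rw [h2]
    exact hj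
  calc d = (univ.image e).card := by
        rw [Finset.card_image_of_injective _ he, Finset.card_univ, Fintype.card_fin]
    _ ≤ _ := Finset.card_le_card hsub

theorem block_code (hd : 1 ≤ d) (hdn : d ≤ n) :
    ∃ C : Finset (Fin n → Bool), (∀ (k : ℕ) (f : (Fin k → Bool) → Bool), Closed f C) ∧
      (∀ x ∈ C, ∀ y ∈ C, x ≠ y → d ≤ hammingDist x y) ∧ C.card = 2 ^ (n / d) := by
  classical
  refine ⟨univ.image (enc hd hdn), ?_, ?_, ?_⟩
  · intro k f w hw
    have : ∀ i, ∃ v, enc hd hdn v = w i := fun i => by
      obtain ⟨v, -, hv⟩ := Finset.mem_image.1 (hw i)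
      exact ⟨v, hv⟩
    choose v hv using this
    refine Finset.mem_image.2 ⟨fun j => f fun i => v i j, Finset.mem_univ _, ?_⟩
    funext l
    show f _ = f _
    congr 1
    funext i
    rw [← hv i]
    rfl
  · intro x hx y hy hxy
    obtain ⟨v, -, rfl⟩ := Finset.mem_image.1 hx
    obtain ⟨v', -, rfl⟩ := Finset.mem_image.1 hy
    exact enc_dist hd hdn fun h => hxy (by rw [h])
  · rw [Finset.card_image_of_injective, Finset.card_univ, Fintype.card_fun, Fintype.card_bool,
      Fintype.card_fin]
    intro v v' h
    by_contra hne
    have h1 := enc_dist hd hdn hne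
    rw [h, hammingDist_self] at h1
    omega

end Block

/-! ### The bound of Gilbert and Varshamov -/

section GV

/-- the sum of two words -/
def add (x y : Fin n → Bool) : Fin n → Bool := fun l => xor (x l) (y l)

lemma hammingDist_add (x y z : Fin n → Bool) :
    hammingDist (add x z) (add y z) = hammingDist x y := by
  unfold hammingDist add
  congr 1
  ext l
  simp

lemma ball_card (c : Fin n → Bool) (d : ℕ) :
    (univ.filter fun w : Fin n → Bool => hammingDist w c < d).card ≤
      ∑ i ∈ range d, n.choose i := by
  classical
  let Φ : (Fin n → Bool) → Finset (Fin n) := fun x => univ.filter fun l => x l ≠ c l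
  have hmem : ∀ x l, l ∈ Φ x ↔ x l ≠ c l := fun x l => by simp [Φ]
  have hinj : Function.Injective Φ := by
    intro x y h
    funext l
    have h1 : l ∈ Φ x ↔ l ∈ Φ y := by rw [h]
    rw [hmem, hmem] at h1
    cases hx : x l <;> cases hy : y l <;> cases hcl : c l <;> simp_all
  rw [← Finset.card_image_of_injective _ hinj]
  calc _ ≤ ((range d).biUnion fun i => (univ : Finset (Fin n)).powersetCard i).card := by
        apply Finset.card_le_card
        intro A hA
        obtain ⟨w, hw, rfl⟩ := Finset.mem_image.1 hA
        rw [Finset.mem_filter] at hw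
        rw [Finset.mem_biUnion]
        exact ⟨(Φ w).card, Finset.mem_range.2 hw.2,
          Finset.mem_powersetCard.2 ⟨Finset.subset_univ _, rfl⟩⟩
    _ ≤ ∑ i ∈ range d, ((univ : Finset (Fin n)).powersetCard i).card := Finset.card_biUnion_le
    _ = ∑ i ∈ range d, n.choose i := by simp

/-- the properties of the codes considered -/
def Good (d : ℕ) (C : Finset (Fin n → Bool)) : Prop :=
  (∀ x ∈ C, ∀ y ∈ C, add x y ∈ C) ∧ (fun _ => true) ∈ C ∧
    ∀ x ∈ C, ∀ y ∈ C, x ≠ y → d ≤ hammingDist x y

theorem gv {d : ℕ} (hd : 1 ≤ d) (hdn : d ≤ n) :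
    ∃ C : Finset (Fin n → Bool), Good d C ∧ 2 ^ n ≤ C.card * ∑ i ∈ range d, n.choose i := by
  classical
  have h01 : Good (n := n) d {fun _ => false, fun _ => true} := by
    refine ⟨?_, by simp, ?_⟩
    · intro x hx y hy
      simp only [Finset.mem_insert, Finset.mem_singleton] at hx hy ⊢
      rcases hx with rfl | rfl <;> rcases hy with rfl | rfl
      · left; rfl
      · right; rfl
      · right; rfl
      · left; rfl
    · intro x hx y hy hxy
      have hn : hammingDist (fun _ : Fin n => false) (fun _ => true) = n := by
        unfold hammingDist; simp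
      have hn' : hammingDist (fun _ : Fin n => true) (fun _ => false) = n := by
        unfold hammingDist; simp
      simp only [Finset.mem_insert, Finset.mem_singleton] at hx hy
      rcases hx with rfl | rfl <;> rcases hy with rfl | rfl
      · exact absurd rfl hxy
      · rw [hn]; exact hdn
      · rw [hn']; exact hdn
      · exact absurd rfl hxy
  obtain ⟨C, hC, hmax⟩ := Finset.exists_max_image
    (univ.filter fun C : Finset (Fin n → Bool) => Good d C) Finset.card ⟨_, by
      rw [Finset.mem_filter]; exact ⟨Finset.mem_univ _, h01⟩⟩
  simp only [Finset.mem_filter, Finset.mem_univ, true_and] at hC hmax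
  refine ⟨C, hC, ?_⟩
  by_contra hcon
  push Not at hcon
  obtain ⟨hadd, hone, hdist⟩ := hC
  have hzero : (fun _ => false) ∈ C := by
    have := hadd _ hone _ hone
    convert this using 1
    funext l
    rfl
  -- a word far away from the code
  obtain ⟨w, hw⟩ : ∃ w : Fin n → Bool, ∀ c ∈ C, d ≤ hammingDist w c := by
    by_contra hno
    push Not at hno
    have h1 : (univ : Finset (Fin n → Bool)) ⊆
        C.biUnion fun c => univ.filter fun w => hammingDist w c < d := by
      intro w _
      obtain ⟨c, hc, hwc⟩ := hno w
      rw [Finset.mem_biUnion]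
      exact ⟨c, hc, by simp [hwc]⟩
    have h2 := Finset.card_le_card h1
    rw [Finset.card_univ, Fintype.card_fun, Fintype.card_bool, Fintype.card_fin] at h2
    have h3 : (C.biUnion fun c => univ.filter fun w => hammingDist w c < d).card ≤
        C.card * ∑ i ∈ range d, n.choose i := by
      refine Finset.card_biUnion_le.trans ?_
      refine (Finset.sum_le_sum fun c _ => ball_card c d).trans ?_
      rw [Finset.sum_const, smul_eq_mul]
    omega
  have hwC : w ∉ C := by
    intro h
    have := hw w h
    rw [hammingDist_self] at this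
    omega
  have hmem : ∀ x, x ∈ C ∪ C.image (add w) ↔ x ∈ C ∨ ∃ c ∈ C, add w c = x := by
    intro x; simp
  have hdw : ∀ x ∈ C, ∀ y ∈ C, d ≤ hammingDist x (add w y) := by
    intro x hx y hy
    have h1 := hw _ (hadd _ hx _ hy)
    rw [hammingDist_comm, ← hammingDist_add _ _ y]
    have h2 : add (add w y) y = w := by
      funext l; simp [add]
    rw [h2]
    exact h1
  have hgood : Good d (C ∪ C.image (add w)) := by
    refine ⟨?_, ?_, ?_⟩
    · intro x hx y hy
      rw [hmem] at hx hy ⊢
      rcases hx with hx | ⟨x, hx, rfl⟩ <;> rcases hy with hy | ⟨y, hy, rfl⟩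
      · exact Or.inl (hadd _ hx _ hy)
      · refine Or.inr ⟨add x y, hadd _ hx _ hy, ?_⟩
        funext l; simp only [add]; cases w l <;> cases x l <;> cases y l <;> rfl
      · refine Or.inr ⟨add x y, hadd _ hx _ hy, ?_⟩
        funext l; simp only [add]; cases w l <;> cases x l <;> cases y l <;> rfl
      · refine Or.inl ?_
        convert hadd _ hx _ hy using 1
        funext l; simp only [add]; cases w l <;> cases x l <;> cases y l <;> rfl
    · exact (hmem _).2 (Or.inl hone)
    · intro x hx y hy hxy
      rw [hmem] at hx hy
      rcases hx with hx | ⟨x, hx, rfl⟩ <;> rcases hy with hy | ⟨y, hy, rfl⟩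
      · exact hdist _ hx _ hy hxy
      · exact hdw x hx y hy
      · rw [hammingDist_comm]; exact hdw y hy x hx
      · have h1 : hammingDist (add w x) (add w y) = hammingDist x y := by
          have e1 : add w x = add x w := by funext l; simp [add, Bool.xor_comm]
          have e2 : add w y = add y w := by funext l; simp [add, Bool.xor_comm]
          rw [e1, e2, hammingDist_add]
        rw [h1]
        exact hdist x hx y hy fun h => hxy (by rw [h])
  have h1 := hmax _ hgood
  have h2 : C ⊂ C ∪ C.image (add w) := by
    refine Finset.ssubset_iff_subset_ne.2 ⟨Finset.subset_union_left, fun h => hwC ?_⟩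
    rw [h, hmem]
    refine Or.inr ⟨_, hzero, ?_⟩
    funext l; simp [add]
  have h3 := Finset.card_lt_card h2
  omega

/-- a code closed under addition and containing the word of ones is closed under every affine
function -/
lemma closed_of_good {d k : ℕ} {f : (Fin k → Bool) → Bool} (hf : Affine f)
    {C : Finset (Fin n → Bool)} (hC : Good d C) : Closed f C := by
  classical
  obtain ⟨hadd, hone, -⟩ := hC
  obtain ⟨c, A, hA⟩ := hf
  intro w hw
  have hzero : (fun _ => false) ∈ C := by
    have := hadd _ hone _ hone
    convert this using 1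
    funext l
    rfl
  have key : ∀ s : Finset (Fin k), (fun l => xor c (decide (Odd
      (s.filter fun i => w i l = true).card))) ∈ C := by
    intro s
    induction s using Finset.induction_on with
    | empty =>
      cases c
      · convert hzero using 1; funext l; simp
      · convert hone using 1; funext l; simp
    | insert j s hj ih =>
      convert hadd _ ih _ (hw j) using 1
      funext l
      have hodd : ∀ m : ℕ, decide (Odd (m + 1)) = !(decide (Odd m)) := fun m => by
        by_cases h : Odd m <;> simp [h, Nat.odd_add_one]
      rw [Finset.filter_insert]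
      show _ = xor (xor c (decide (Odd (s.filter fun i => w i l = true).card))) (w j l)
      cases hwl : w j l
      · simp
      · simp only [if_true]
        rw [Finset.card_insert_of_notMem (by simp [hj]), hodd]
        cases c <;> cases decide (Odd (s.filter fun i => w i l = true).card) <;> rfl
  convert key A using 1
  funext l
  exact hA _

end GV

end Pool.Agent.V11160.CO
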