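import Mathlib

/-!
# Locally distributive union-closed families
-/

set_option autoImplicit false

namespace Pool.Agent.V11160.UC

open Finset

variable {α : Type*} [DecidableEq α]

/-- closed under unions -/
def UnionClosed (F : Finset (Finset α)) : Prop := ∀ S ∈ F, ∀ T ∈ F, S ∪ T ∈ F

/-- the union of all members of `F` contained in `A ∩ B` -/
def meet (F : Finset (Finset α)) (A B : Finset α) : Finset α :=
  (F.filter fun T => T ⊆ A ∩ B).sup id

/-- unions distribute over meets as soon as the three members contain a common member -/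
def LocDist (F : Finset (Finset α)) : Prop :=
  ∀ S ∈ F, ∀ A ∈ F, ∀ B ∈ F, ∀ C ∈ F, S ⊆ A → S ⊆ B → S ⊆ C →
    meet F (A ∪ C) (B ∪ C) = meet F A B ∪ C

variable {F : Finset (Finset α)}

lemma sup_mem (hU : UnionClosed F) {G : Finset (Finset α)} (hG : G ⊆ F) (hne : G.Nonempty) :
    G.sup id ∈ F := by
  classical
  induction hne using Finset.Nonempty.cons_induction with
  | singleton a => simpa using hG (by simp)
  | cons a s ha hs ih =>
    rw [Finset.sup_cons]
    exact hU _ (hG (by simp)) _ (ih fun x hx => hG (by simp [hx]))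

lemma meet_mem (hU : UnionClosed F) {S A B : Finset α} (hS : S ∈ F) (hA : S ⊆ A) (hB : S ⊆ B) :
    meet F A B ∈ F :=
  sup_mem hU (Finset.filter_subset _ _) ⟨S, by simp [hS, subset_inter hA hB]⟩

lemma le_meet {S A B : Finset α} (hS : S ∈ F) (hA : S ⊆ A) (hB : S ⊆ B) : S ⊆ meet F A B :=
  Finset.le_sup (f := id) (b := S) (by simp [hS, subset_inter hA hB])

lemma meet_sub {A B : Finset α} : meet F A B ⊆ A ∩ B :=
  Finset.sup_le (f := id) fun T hT => (Finset.mem_filter.1 hT).2

lemma meet_left {A B : Finset α} : meet F A B ⊆ A := meet_sub.trans inter_subset_left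

lemma meet_right {A B : Finset α} : meet F A B ⊆ B := meet_sub.trans inter_subset_right

/-- a member which is not the largest one and is not a meet of two other members -/
def MI (F : Finset (Finset α)) (m : Finset α) : Prop :=
  m ∈ F ∧ (∃ T ∈ F, ¬ T ⊆ m) ∧ ∀ A ∈ F, ∀ B ∈ F, meet F A B = m → A = m ∨ B = m

/-- members are separated by meet-irreducible members -/
lemma exists_MI {S T : Finset α} (hS : S ∈ F) (hT : T ∈ F) (h : ¬ T ⊆ S) :
    ∃ m, MI F m ∧ S ⊆ m ∧ ¬ T ⊆ m := by
  classical
  obtain ⟨m, hm, hmax⟩ := Finset.exists_max_image (F.filter fun m => S ⊆ m ∧ ¬ T ⊆ m)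
    Finset.card ⟨S, by simp [hS, h]⟩
  simp only [Finset.mem_filter] at hm hmax
  refine ⟨m, ⟨hm.1, ⟨T, hT, hm.2.2⟩, fun A hA B hB hAB => ?_⟩, hm.2.1, hm.2.2⟩
  by_contra hcon
  rw [not_or] at hcon
  have hmA : m ⊆ A := hAB ▸ meet_left
  have hmB : m ⊆ B := hAB ▸ meet_right
  have key : ∀ X ∈ F, m ⊆ X → X ≠ m → T ⊆ X := by
    intro X hX hmX hne
    by_contra hTX
    have := hmax X ⟨hX, hm.2.1.trans hmX, hTX⟩
    exact hne (Finset.eq_of_subset_of_card_le hmX this).symm
  exact hm.2.2 (hAB ▸ le_meet hT (key A hA hmA hcon.1) (key B hB hmB hcon.2))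

/-- a meet-irreducible member is the largest member avoiding some element -/
lemma exists_elt (hU : UnionClosed F) {m : Finset α} (hm : MI F m) :
    ∃ a, a ∉ m ∧ ∀ T ∈ F, (a ∉ T ↔ T ⊆ m) := by
  classical
  obtain ⟨hmF, ⟨T0, hT0, hT0m⟩, hirr⟩ := hm
  have hne : (F.filter fun X => m ⊆ X ∧ X ≠ m).Nonempty := by
    refine ⟨m ∪ T0, ?_⟩
    simp only [Finset.mem_filter]
    exact ⟨hU _ hmF _ hT0, subset_union_left, fun h => hT0m (h ▸ subset_union_right)⟩
  obtain ⟨M, hM, hmin⟩ := Finset.exists_min_image _ Finset.card hne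
  simp only [Finset.mem_filter] at hM hmin
  have hall : ∀ X ∈ F, m ⊆ X → X ≠ m → M ⊆ X := by
    intro X hX hmX hXm
    have h1 : m ⊆ meet F M X := le_meet hmF hM.2.1 hmX
    have h2 : meet F M X ≠ m := by
      intro h
      rcases hirr M hM.1 X hX h with h | h
      · exact hM.2.2 h
      · exact hXm h
    have h3 := hmin _ ⟨meet_mem hU hmF hM.2.1 hmX, h1, h2⟩
    have h4 : meet F M X = M := Finset.eq_of_subset_of_card_le meet_left h3
    exact h4 ▸ meet_right
  obtain ⟨a, haM, ham⟩ : ∃ a ∈ M, a ∉ m := by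
    by_contra h
    push Not at h
    exact hM.2.2 (Finset.Subset.antisymm h hM.2.1)
  refine ⟨a, ham, fun T hT => ⟨fun haT => ?_, fun h h2 => ham (h h2)⟩⟩
  by_contra hTm
  have h1 : m ∪ T ≠ m := fun h => hTm (h ▸ subset_union_right)
  have h2 := hall _ (hU _ hmF _ hT) subset_union_left h1 haM
  rcases Finset.mem_union.1 h2 with h3 | h3
  · exact ham h3
  · exact haT h3

/-- a meet-irreducible member which contains no other one -/
def MinMI (F : Finset (Finset α)) (m : Finset α) : Prop :=
  MI F m ∧ ∀ m', MI F m' → m' ⊆ m → m' = m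

lemma exists_MinMI {m : Finset α} (hm : MI F m) : ∃ m', MinMI F m' ∧ m' ⊆ m := by
  classical
  obtain ⟨m', hm', hmin⟩ := Finset.exists_min_image (F.filter fun x => MI F x ∧ x ⊆ m)
    Finset.card ⟨m, by simp [hm, hm.1]⟩
  simp only [Finset.mem_filter] at hm' hmin
  refine ⟨m', ⟨hm'.2.1, fun x hx hxm => ?_⟩, hm'.2.2⟩
  exact Finset.eq_of_subset_of_card_le hxm (hmin x ⟨hx.1, hx, hxm.trans hm'.2.2⟩)

/-- the smallest member above `S` not below the meet-irreducible member `m` -/
lemma exists_phi (hU : UnionClosed F) (hD : LocDist F) {m S : Finset α} (hm : MI F m)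
    (hS : S ∈ F) (hSm : S ⊆ m) :
    ∃ T ∈ F, S ⊆ T ∧ ¬ T ⊆ m ∧ ∀ X ∈ F, S ⊆ X → ¬ X ⊆ m → T ⊆ X := by
  classical
  obtain ⟨hmF, ⟨T0, hT0, hT0m⟩, hirr⟩ := hm
  have hne : (F.filter fun X => S ⊆ X ∧ ¬ X ⊆ m).Nonempty := by
    refine ⟨S ∪ T0, ?_⟩
    simp only [Finset.mem_filter]
    exact ⟨hU _ hS _ hT0, subset_union_left, fun h => hT0m (subset_union_right.trans h)⟩
  obtain ⟨T, hT, hmin⟩ := Finset.exists_min_image _ Finset.card hne
  simp only [Finset.mem_filter] at hT hmin
  refine ⟨T, hT.1, hT.2.1, hT.2.2, fun X hX hSX hXm => ?_⟩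
  have h2 : ¬ meet F T X ⊆ m := by
    intro h
    have h3 := hD S hS T hT.1 X hX m hmF hT.2.1 hSX hSm
    rw [Finset.union_eq_right.2 h] at h3
    rcases hirr _ (hU _ hT.1 _ hmF) _ (hU _ hX _ hmF) h3 with h4 | h4
    · exact hT.2.2 (h4 ▸ subset_union_left)
    · exact hXm (h4 ▸ subset_union_left)
  have h3 := hmin _ ⟨meet_mem hU hS hT.2.1 hSX, le_meet hS hT.2.1 hSX, h2⟩
  have h4 : meet F T X = T := Finset.eq_of_subset_of_card_le meet_left h3
  exact h4 ▸ meet_right

/-- **The injection.** -/
theorem main (hU : UnionClosed F) (hD : LocDist F) {m : Finset α} (hm : MinMI F m) :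
    (F.filter fun T => T ⊆ m).card ≤ (F.filter fun T => ¬ T ⊆ m).card ∧
    ((F.filter fun T => ¬ T ⊆ m).card ≤ (F.filter fun T => T ⊆ m).card →
      ∀ T ∈ F, ¬ T ⊆ m → ∃ S ∈ F, S ⊆ T ∧ S ⊆ m) := by
  classical
  choose! φ h1 h2 h3 h4 using fun S (hS : S ∈ F ∧ S ⊆ m) => exists_phi hU hD hm.1 hS.1 hS.2
  have hmaps : ∀ S ∈ F.filter (fun T => T ⊆ m), φ S ∈ F.filter (fun T => ¬ T ⊆ m) := by
    intro S hS
    rw [Finset.mem_filter] at hS ⊢
    exact ⟨h1 S hS, h3 S hS⟩
  have haux : ∀ S S' : Finset α, (S ∈ F ∧ S ⊆ m) → (S' ∈ F ∧ S' ⊆ m) → φ S = φ S' → S' ⊆ S := by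
    intro S S' hS hS' he
    by_contra hcon
    obtain ⟨m', hm', hSm', hS'm'⟩ := exists_MI hS.1 hS'.1 hcon
    have hle : m' ⊆ m := by
      by_contra hnot
      have := h4 S hS m' hm'.1 hSm' hnot
      rw [he] at this
      exact hS'm' ((h2 S' hS').trans this)
    have := hm.2 m' hm' hle
    exact hS'm' (this ▸ hS'.2)
  have hinj : Set.InjOn φ (F.filter (fun T => T ⊆ m) : Finset (Finset α)) := by
    intro S hS S' hS' he
    rw [Finset.mem_coe, Finset.mem_filter] at hS hS'
    exact Finset.Subset.antisymm (haux S' S hS' hS he.symm) (haux S S' hS hS' he)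
  refine ⟨Finset.card_le_card_of_injOn φ hmaps hinj, fun hle T hT hTm => ?_⟩
  have himg : (F.filter (fun T => T ⊆ m)).image φ = F.filter (fun T => ¬ T ⊆ m) := by
    apply Finset.eq_of_subset_of_card_le
    · intro X hX
      obtain ⟨S, hS, rfl⟩ := Finset.mem_image.1 hX
      exact hmaps S hS
    · rw [Finset.card_image_of_injOn hinj]
      exact hle
  have : T ∈ (F.filter (fun T => T ⊆ m)).image φ := by
    rw [himg]; simp [hT, hTm]
  obtain ⟨S, hS, hST⟩ := Finset.mem_image.1 this
  rw [Finset.mem_filter] at hS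
  exact ⟨S, hS.1, hST ▸ h2 S hS, hS.2⟩

/-- the number of members containing `a` -/
def deg (F : Finset (Finset α)) (a : α) : ℕ := (F.filter fun T => a ∈ T).card

lemma deg_add (F : Finset (Finset α)) (a : α) :
    deg F a + (F.filter fun T => a ∉ T).card = F.card :=
  Finset.card_filter_add_card_filter_not _

lemma filter_avoid {m : Finset α} {a : α} (ha : ∀ T ∈ F, (a ∉ T ↔ T ⊆ m)) :
    (F.filter fun T => a ∉ T) = F.filter fun T => T ⊆ m :=
  Finset.filter_congr fun T hT => ha T hT

lemma filter_contain {m : Finset α} {a : α} (ha : ∀ T ∈ F, (a ∉ T ↔ T ⊆ m)) :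
    (F.filter fun T => a ∈ T) = F.filter fun T => ¬ T ⊆ m :=
  Finset.filter_congr fun T hT => by rw [← ha T hT, not_not]

/-- If every element lies in at most half of the members, the empty set is a member. -/
theorem empty_mem (hU : UnionClosed F) (hD : LocDist F) (hne : F.Nonempty)
    (hall : ∀ a, 2 * deg F a ≤ F.card) : ∅ ∈ F := by
  classical
  obtain ⟨S0, hS0, hmin⟩ := Finset.exists_min_image F Finset.card hne
  rcases Finset.eq_empty_or_nonempty S0 with h | ⟨b, hb⟩
  · exact h ▸ hS0
  exfalso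
  obtain ⟨R, hR, hbR⟩ : ∃ R ∈ F, b ∉ R := by
    by_contra hcon
    push Not at hcon
    have : deg F b = F.card := by
      unfold deg
      rw [Finset.filter_true_of_mem hcon]
    have h1 := hall b
    have h2 := hne.card_pos
    omega
  obtain ⟨m', hm', -, hS0m'⟩ := exists_MI hR hS0 (fun h => hbR (h hb))
  obtain ⟨m, hm, hmm'⟩ := exists_MinMI hm'
  obtain ⟨a, -, ha⟩ := exists_elt hU hm.1
  have h1 := main hU hD hm
  have h2 := deg_add F a
  have h3 := hall a
  rw [filter_avoid ha] at h2
  unfold deg at h2 h3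
  rw [filter_contain ha] at h2 h3
  obtain ⟨S, hS, hSS0, hSm⟩ := h1.2 (by omega) S0 hS0 (fun h => hS0m' (h.trans hmm'))
  have h4 := Finset.eq_of_subset_of_card_le hSS0 (hmin S hS)
  exact hS0m' (h4 ▸ hSm.trans hmm')

/-- Some element lies in at least half of the members. -/
theorem half (hU : UnionClosed F) (hD : LocDist F) (hne : ∃ S ∈ F, S.Nonempty) :
    ∃ a, F.card ≤ 2 * deg F a := by
  classical
  obtain ⟨S, hS, b, hb⟩ := hne
  by_cases hb' : ∀ T ∈ F, b ∈ T
  · refine ⟨b, ?_⟩
    unfold deg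
    rw [Finset.filter_true_of_mem hb']
    omega
  · push Not at hb'
    obtain ⟨R, hR, hbR⟩ := hb'
    obtain ⟨m', hm', -, -⟩ := exists_MI hR hS (fun h => hbR (h hb))
    obtain ⟨m, hm, -⟩ := exists_MinMI hm'
    obtain ⟨a, -, ha⟩ := exists_elt hU hm.1
    refine ⟨a, ?_⟩
    have h1 := (main hU hD hm).1
    have h2 := deg_add F a
    rw [filter_avoid ha] at h2
    unfold deg at h2 ⊢
    rw [filter_contain ha] at h2 ⊢
    omega

/-- `F` consists of all unions of members of `B` -/
def AllUnions (F B : Finset (Finset α)) : Prop := F = B.powerset.image fun C => C.sup id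

/-- If the empty set is a member and every element lies in at most half of the members, then
the members are the unions of pairwise disjoint blocks. -/
theorem blocks_of_empty : ∀ (n : ℕ) (F : Finset (Finset α)), F.card ≤ n → UnionClosed F →
    LocDist F → ∅ ∈ F → (∀ a, 2 * deg F a ≤ F.card) →
    ∃ B : Finset (Finset α), (∀ b ∈ B, b.Nonempty) ∧
      (∀ b ∈ B, ∀ c ∈ B, b ≠ c → Disjoint b c) ∧ AllUnions F B := by
  classical
  intro n
  induction n with
  | zero =>
    intro F hF _ _ h0 _
    have := Finset.card_pos.2 ⟨∅, h0⟩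
    omega
  | succ n ih =>
    intro F hF hU hD h0 hall
    by_cases hne : ∃ S ∈ F, S.Nonempty
    swap
    · refine ⟨∅, by simp, by simp, ?_⟩
      unfold AllUnions
      push Not at hne
      ext S
      simp only [Finset.powerset_empty, Finset.image_singleton, Finset.sup_empty,
        Finset.bot_eq_empty, Finset.mem_singleton]
      exact ⟨fun h => hne S h, fun h => h ▸ h0⟩
    obtain ⟨A, hA, hmin⟩ := Finset.exists_min_image (F.filter fun S => S.Nonempty) Finset.card
      (by obtain ⟨S, hS, h⟩ := hne; exact ⟨S, by simp [hS, h]⟩)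
    simp only [Finset.mem_filter] at hA hmin
    obtain ⟨hAF, hAne⟩ := hA
    -- the meet of `A` with a member not containing it
    have hmeetA : ∀ T ∈ F, ¬ A ⊆ T → meet F A T = ∅ := by
      intro T hT hAT
      by_contra hcon
      have h1 := hmin _ ⟨meet_mem hU h0 (empty_subset _) (empty_subset _),
        Finset.nonempty_iff_ne_empty.2 hcon⟩
      exact hAT ((Finset.eq_of_subset_of_card_le meet_left h1) ▸ meet_right)
    have hD' : ∀ A' ∈ F, ∀ B ∈ F, ∀ C ∈ F, meet F (A' ∪ C) (B ∪ C) = meet F A' B ∪ C :=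
      fun A' hA' B hB C hC => hD ∅ h0 A' hA' B hB C hC (empty_subset _) (empty_subset _)
        (empty_subset _)
    have hprime : ∀ T1 ∈ F, ∀ T2 ∈ F, ¬ A ⊆ T1 → ¬ A ⊆ T2 → ¬ A ⊆ T1 ∪ T2 := by
      intro T1 hT1 T2 hT2 h1 h2 h12
      have h3 := hD' A hAF T1 hT1 T2 hT2
      rw [hmeetA T1 hT1 h1, Finset.empty_union] at h3
      have h4 : A ∪ T2 ⊆ meet F (A ∪ T2) (T1 ∪ T2) :=
        le_meet (hU _ hAF _ hT2) subset_rfl (union_subset h12 subset_union_right)
      rw [h3] at h4
      exact h2 (subset_union_left.trans h4)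
    have hinjaux : ∀ T ∈ F, ∀ T' ∈ F, ¬ A ⊆ T → ¬ A ⊆ T' → T ∪ A = T' ∪ A → T' ⊆ T := by
      intro T hT T' hT' h1 h2 he
      have h3 := hD' A hAF T' hT' T hT
      rw [hmeetA T' hT' h2, Finset.empty_union] at h3
      have h4 : T' ∪ T ⊆ meet F (A ∪ T) (T' ∪ T) := by
        refine le_meet (hU _ hT' _ hT) ?_ subset_rfl
        refine union_subset ?_ subset_union_right
        rw [Finset.union_comm A T, he]
        exact subset_union_left
      rw [h3] at h4
      exact subset_union_left.trans h4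
    set F' := F.filter fun T => ¬ A ⊆ T with hF'
    have hmemF' : ∀ T, T ∈ F' ↔ T ∈ F ∧ ¬ A ⊆ T := fun T => by rw [hF', Finset.mem_filter]
    have hinj : Set.InjOn (fun T => T ∪ A) (F' : Set (Finset α)) := by
      intro T hT T' hT' he
      rw [Finset.mem_coe, hmemF'] at hT hT'
      exact Finset.Subset.antisymm (hinjaux T' hT'.1 T hT.1 hT'.2 hT.2 he.symm)
        (hinjaux T hT.1 T' hT'.1 hT.2 hT'.2 he)
    have hmaps : ∀ T ∈ F', T ∪ A ∈ F.filter fun T => A ⊆ T := by
      intro T hT
      rw [hmemF'] at hT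
      exact Finset.mem_filter.2 ⟨hU _ hT.1 _ hAF, subset_union_right⟩
    have hcard : F'.card ≤ (F.filter fun T => A ⊆ T).card :=
      Finset.card_le_card_of_injOn _ hmaps hinj
    have hsum : (F.filter fun T => A ⊆ T).card + F'.card = F.card :=
      Finset.card_filter_add_card_filter_not _
    have hdegA : ∀ b ∈ A, (F.filter fun T => A ⊆ T) = F.filter fun T => b ∈ T := by
      intro b hb
      apply Finset.eq_of_subset_of_card_le
      · intro T hT
        rw [Finset.mem_filter] at hT ⊢
        exact ⟨hT.1, hT.2 hb⟩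
      · have := hall b
        unfold deg at this
        omega
    obtain ⟨b0, hb0⟩ := hAne
    have hcardeq : (F.filter fun T => A ⊆ T).card = F'.card := by
      have := hall b0
      unfold deg at this
      rw [← hdegA b0 hb0] at this
      omega
    have himg : F'.image (fun T => T ∪ A) = F.filter fun T => A ⊆ T := by
      apply Finset.eq_of_subset_of_card_le
      · intro X hX
        obtain ⟨T, hT, rfl⟩ := Finset.mem_image.1 hX
        exact hmaps T hT
      · rw [Finset.card_image_of_injOn hinj, hcardeq]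
    have hdisj : ∀ T ∈ F', Disjoint A T := by
      intro T hT
      rw [hmemF'] at hT
      rw [Finset.disjoint_left]
      intro b hb hbT
      have : T ∈ F.filter fun T => A ⊆ T := by
        rw [hdegA b hb]; exact Finset.mem_filter.2 ⟨hT.1, hbT⟩
      exact hT.2 (Finset.mem_filter.1 this).2
    have hdesc : ∀ X, X ∈ F ↔ X ∈ F' ∨ ∃ T ∈ F', X = T ∪ A := by
      intro X
      constructor
      · intro hX
        by_cases hAX : A ⊆ X
        · right
          have : X ∈ F'.image (fun T => T ∪ A) := by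
            rw [himg]; exact Finset.mem_filter.2 ⟨hX, hAX⟩
          obtain ⟨T, hT, h⟩ := Finset.mem_image.1 this
          exact ⟨T, hT, h.symm⟩
        · left; exact (hmemF' X).2 ⟨hX, hAX⟩
      · rintro (h | ⟨T, hT, rfl⟩)
        · exact ((hmemF' X).1 h).1
        · exact hU _ ((hmemF' T).1 hT).1 _ hAF
    have hU' : UnionClosed F' := by
      intro S hS T hT
      rw [hmemF'] at hS hT ⊢
      exact ⟨hU _ hS.1 _ hT.1, hprime _ hS.1 _ hT.1 hS.2 hT.2⟩
    have hmeet' : ∀ S T, S ∈ F' → meet F' S T = meet F S T := by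
      intro S T hS
      unfold meet
      congr 1
      ext X
      simp only [Finset.mem_filter, hmemF']
      constructor
      · rintro ⟨⟨h1, -⟩, h3⟩; exact ⟨h1, h3⟩
      · rintro ⟨h1, h3⟩
        exact ⟨⟨h1, fun h => ((hmemF' S).1 hS).2 (h.trans (h3.trans inter_subset_left))⟩, h3⟩
    have hDF' : LocDist F' := by
      intro S _ A' hA' B hB C hC _ _ _
      rw [hmeet' _ _ (hU' _ hA' _ hC), hmeet' _ _ hA']
      exact hD' _ ((hmemF' _).1 hA').1 _ ((hmemF' _).1 hB).1 _ ((hmemF' _).1 hC).1
    have h0' : ∅ ∈ F' := by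
      rw [hmemF']
      exact ⟨h0, fun h => by simpa using h hb0⟩
    have hcardF : F.card = 2 * F'.card := by omega
    have hall' : ∀ a, 2 * deg F' a ≤ F'.card := by
      intro a
      by_cases ha : a ∈ A
      · have : deg F' a = 0 := by
          unfold deg
          rw [Finset.card_eq_zero, Finset.filter_eq_empty_iff]
          intro T hT haT
          exact Finset.disjoint_left.1 (hdisj T hT) ha haT
        omega
      · have h1 : (F.filter fun T => a ∈ T) =
            (F'.filter fun T => a ∈ T) ∪ (F'.filter fun T => a ∈ T).image (fun T => T ∪ A) := by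
          ext X
          simp only [Finset.mem_filter, Finset.mem_union, Finset.mem_image, hdesc]
          constructor
          · rintro ⟨h | ⟨T, hT, rfl⟩, haX⟩
            · exact Or.inl ⟨h, haX⟩
            · refine Or.inr ⟨T, ⟨hT, ?_⟩, rfl⟩
              rcases Finset.mem_union.1 haX with h | h
              · exact h
              · exact absurd h ha
          · rintro (⟨h, haX⟩ | ⟨T, ⟨hT, haT⟩, rfl⟩)
            · exact ⟨Or.inl h, haX⟩
            · exact ⟨Or.inr ⟨T, hT, rfl⟩, Finset.mem_union_left _ haT⟩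
        have h2 : Disjoint (F'.filter fun T => a ∈ T)
            ((F'.filter fun T => a ∈ T).image (fun T => T ∪ A)) := by
          rw [Finset.disjoint_left]
          intro X hX hX'
          obtain ⟨T, -, rfl⟩ := Finset.mem_image.1 hX'
          exact ((hmemF' _).1 (Finset.mem_filter.1 hX).1).2 subset_union_right
        have h3 := hall a
        unfold deg at h3 ⊢
        rw [h1, Finset.card_union_of_disjoint h2, Finset.card_image_of_injOn
          (hinj.mono (by exact_mod_cast Finset.filter_subset _ _))] at h3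
        omega
    have hpos : 0 < F'.card := Finset.card_pos.2 ⟨∅, h0'⟩
    obtain ⟨B, hB1, hB2, hB3⟩ := ih F' (by omega) hU' hDF' h0' hall'
    have hBF' : ∀ b ∈ B, b ∈ F' := by
      intro b hb
      rw [hB3]
      exact Finset.mem_image.2 ⟨{b}, by simp [hb], by simp⟩
    have hAB : A ∉ B := fun h => ((hmemF' A).1 (hBF' A h)).2 subset_rfl
    refine ⟨insert A B, ?_, ?_, ?_⟩
    · intro b hb
      rcases Finset.mem_insert.1 hb with rfl | hb
      · exact ⟨b0, hb0⟩
      · exact hB1 b hb
    · intro b hb c hc hbc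
      rcases Finset.mem_insert.1 hb with h1 | h1 <;> rcases Finset.mem_insert.1 hc with h2 | h2
      · exact absurd (h1.trans h2.symm) hbc
      · rw [h1]; exact hdisj c (hBF' c h2)
      · rw [h2]; exact (hdisj b (hBF' b h1)).symm
      · exact hB2 b h1 c h2 hbc
    · unfold AllUnions at hB3 ⊢
      ext X
      rw [hdesc X, Finset.powerset_insert, Finset.image_union, Finset.mem_union, ← hB3]
      refine or_congr Iff.rfl ?_
      simp only [Finset.mem_image, exists_exists_and_eq_and]
      constructor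
      · rintro ⟨T, hT, rfl⟩
        rw [hB3] at hT
        obtain ⟨C, hC, rfl⟩ := Finset.mem_image.1 hT
        refine ⟨C, hC, ?_⟩
        rw [Finset.sup_insert, id, Finset.sup_eq_union, Finset.union_comm]
      · rintro ⟨C, hC, rfl⟩
        refine ⟨C.sup id, ?_, ?_⟩
        · rw [hB3]; exact Finset.mem_image.2 ⟨C, hC, rfl⟩
        · rw [Finset.sup_insert, id, Finset.sup_eq_union, Finset.union_comm]

/-- **Poonen's strict form**: some element lies in strictly more than half of the members,
unless the members are the unions of pairwise disjoint blocks. -/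
theorem strict (hU : UnionClosed F) (hD : LocDist F) (hne : F.Nonempty) :
    (∃ a, F.card < 2 * deg F a) ∨
    ∃ B : Finset (Finset α), (∀ b ∈ B, b.Nonempty) ∧
      (∀ b ∈ B, ∀ c ∈ B, b ≠ c → Disjoint b c) ∧ AllUnions F B := by
  by_cases h : ∃ a, F.card < 2 * deg F a
  · exact Or.inl h
  · push Not at h
    exact Or.inr (blocks_of_empty _ F le_rfl hU hD (empty_mem hU hD hne h) h)

end Pool.Agent.V11160.UC
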